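import Pool.Agent.helper50.PHN.Spec

/-!
# The period without a prime (row phn:UUD)
-/

set_option autoImplicit false

namespace Pool.Agent.PHN

open Finset

theorem UUD_one (T q : ℕ) (hT : 1 ≤ T) (hq : q.Prime) :
    q ^ T.factorization q * uu T q = T ∧ ¬ q ∣ uu T q ∧ ∀ n, n ∣ T → ¬ q ∣ n → n ∣ uu T q := by
  have hT0 : T ≠ 0 := by omega
  have h1 : q ^ T.factorization q * uu T q = T := Nat.ordProj_mul_ordCompl_eq_self T q
  refine ⟨h1, Nat.not_dvd_ordCompl hq hT0, ?_⟩
  intro n hn hqn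
  have hcop : Nat.Coprime n (q ^ T.factorization q) :=
    (Nat.Coprime.pow_right _ ((Nat.Prime.coprime_iff_not_dvd hq).mpr hqn).symm)
  apply hcop.dvd_of_dvd_mul_left
  rw [h1]
  exact hn

theorem UUD_lp (m p : ℕ) (hp : p ∈ m.primeFactors) : p ≤ lp m := by
  unfold lp
  exact Finset.le_sup (f := id) hp

theorem UUD : UUD_stmt := by
  refine ⟨UUD_one, ?_⟩
  intro D
  have hprod : 1 ≤ ∏ i ∈ D.S, D.m i := by
    apply Nat.one_le_iff_ne_zero.mpr
    apply Finset.prod_ne_zero_iff.mpr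
    intro i hi
    have := D.mpos i hi
    omega
  have hT : 1 ≤ D.T := by
    unfold Sys.T
    exact Nat.one_le_iff_ne_zero.mpr (Nat.mul_ne_zero (by have := D.W1; omega) (by omega))
  have hW : D.W ∣ D.T := by
    unfold Sys.T
    exact Dvd.intro _ rfl
  have hm : ∀ i ∈ D.S, D.m i ∣ D.T := by
    intro i hi
    unfold Sys.T
    exact Dvd.dvd.mul_left (Finset.dvd_prod_of_mem D.m hi) _
  refine ⟨hT, hW, hm, ?_, ?_, ?_⟩
  · intro p hp hq
    apply (UUD_one D.T p hT hp).2.2 D.W hW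
    intro hd
    have h1 := Nat.le_of_dvd (by have := D.W1; omega) hd
    have h2 := D.Wq
    omega
  · intro i hi p hp hlt
    apply (UUD_one D.T p hT hp).2.2 (D.m i) (hm i hi)
    intro hd
    have h1 := UUD_lp (D.m i) p (Nat.mem_primeFactors.mpr ⟨hp, hd, by have := D.mpos i hi; omega⟩)
    omega
  · intro i _ p hp
    exact UUD_lp (D.m i) p hp

end Pool.Agent.PHN
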